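import Pool.Agent.Helper21.CU.St

set_option autoImplicit false

open Finset

namespace Pool.Agent.Helper30.CU

open Pool.Agent.Helper21.CU

/-- number of members of a residue class in a symmetric interval -/
theorem cnt1 (Z M : ℕ) (hM : 1 ≤ M) (c : ℤ) :
    |(((Icc (-(Z : ℤ)) Z).filter (fun z : ℤ => z ≡ c [ZMOD (M : ℤ)])).card : ℝ) - (2 * (Z : ℝ) + 1) / M| ≤ 1 := by
  have hM0 : (0 : ℤ) < (M : ℤ) := by exact_mod_cast hM
  have hMr : (0 : ℝ) < (M : ℝ) := by exact_mod_cast hM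
  have e1 : Icc (-(Z : ℤ)) Z = Ioc (-(Z : ℤ) - 1) Z := by
    ext z
    simp only [mem_Icc, mem_Ioc]
    omega
  rw [e1]
  have h := Int.Ioc_filter_modEq_card (-(Z : ℤ) - 1) (Z : ℤ) hM0 c
  set n := ((Ioc (-(Z : ℤ) - 1) (Z : ℤ)).filter (fun z : ℤ => z ≡ c [ZMOD (M : ℤ)])).card with hn
  set A := ⌊(((Z : ℤ) : ℚ) - (c : ℚ)) / ((M : ℤ) : ℚ)⌋ with hA
  set B := ⌊(((-(Z : ℤ) - 1 : ℤ) : ℚ) - (c : ℚ)) / ((M : ℤ) : ℚ)⌋ with hB
  have hMq : (0 : ℚ) < ((M : ℤ) : ℚ) := by exact_mod_cast hM0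
  have a1 : (A : ℚ) ≤ (((Z : ℤ) : ℚ) - (c : ℚ)) / ((M : ℤ) : ℚ) := Int.floor_le _
  have a2 : (((Z : ℤ) : ℚ) - (c : ℚ)) / ((M : ℤ) : ℚ) < (A : ℚ) + 1 := Int.lt_floor_add_one _
  have b1 : (B : ℚ) ≤ (((-(Z : ℤ) - 1 : ℤ) : ℚ) - (c : ℚ)) / ((M : ℤ) : ℚ) := Int.floor_le _
  have b2 : (((-(Z : ℤ) - 1 : ℤ) : ℚ) - (c : ℚ)) / ((M : ℤ) : ℚ) < (B : ℚ) + 1 := Int.lt_floor_add_one _
  have e2 : (((Z : ℤ) : ℚ) - (c : ℚ)) / ((M : ℤ) : ℚ) - (((-(Z : ℤ) - 1 : ℤ) : ℚ) - (c : ℚ)) / ((M : ℤ) : ℚ) =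
      (2 * (Z : ℚ) + 1) / (M : ℚ) := by
    push_cast
    rw [← sub_div]
    congr 1
    ring
  have hpos : (0 : ℚ) < (2 * (Z : ℚ) + 1) / (M : ℚ) := by positivity
  have hAB : B ≤ A := by
    have : (B : ℚ) < (A : ℚ) + 1 := by linarith
    have : B < A + 1 := by exact_mod_cast this
    omega
  have hmax : max (A - B) 0 = A - B := max_eq_left (by omega)
  rw [hmax] at h
  have hq : ((n : ℤ) : ℚ) = (A : ℚ) - (B : ℚ) := by rw [h]; push_cast; ring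
  have c1 : ((n : ℚ)) - (2 * (Z : ℚ) + 1) / (M : ℚ) ≤ 1 := by
    have : ((n : ℤ) : ℚ) = (n : ℚ) := by norm_cast
    rw [← this, hq]; linarith
  have c2 : -1 ≤ ((n : ℚ)) - (2 * (Z : ℚ) + 1) / (M : ℚ) := by
    have : ((n : ℤ) : ℚ) = (n : ℚ) := by norm_cast
    rw [← this, hq]; linarith
  have d1 : (((n : ℚ) - (2 * (Z : ℚ) + 1) / (M : ℚ) : ℚ) : ℝ) ≤ ((1 : ℚ) : ℝ) := by exact_mod_cast c1
  have d2 : (((-1 : ℚ)) : ℝ) ≤ (((n : ℚ) - (2 * (Z : ℚ) + 1) / (M : ℚ) : ℚ) : ℝ) := by exact_mod_cast c2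
  push_cast at d1 d2
  rw [abs_le]
  exact ⟨d2, d1⟩

/-- the residues modulo `s` -/
theorem fib (k : ℤ) (Z s : ℕ) (hs : 1 ≤ s) (F : ℤ → ℝ) :
    ∑ z ∈ (Icc (-(Z : ℤ)) Z).filter (fun z : ℤ => (s : ℤ) ∣ z ^ 3 - k), F z =
      ∑ v ∈ R k s, ∑ z ∈ (Icc (-(Z : ℤ)) Z).filter (fun z : ℤ => z ≡ (v : ℤ) [ZMOD (s : ℤ)]), F z := by
  have hs0 : (0 : ℤ) < (s : ℤ) := by exact_mod_cast hs
  have key : ∀ z : ℤ, (((z % (s : ℤ)).toNat : ℕ) : ℤ) = z % (s : ℤ) := fun z =>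
    Int.toNat_of_nonneg (Int.emod_nonneg _ hs0.ne')
  have hmaps : ∀ z ∈ (Icc (-(Z : ℤ)) Z).filter (fun z : ℤ => (s : ℤ) ∣ z ^ 3 - k),
      (z % (s : ℤ)).toNat ∈ R k s := by
    intro z hz
    have h2 := (mem_filter.mp hz).2
    unfold R
    rw [mem_filter, mem_range]
    refine ⟨?_, ?_⟩
    · have := Int.emod_lt_of_pos z hs0
      have h3 := key z
      omega
    · rw [key z]
      have h1 : z % (s : ℤ) ≡ z [ZMOD (s : ℤ)] := Int.mod_modEq z s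
      have h3 : (z % (s : ℤ)) ^ 3 - k ≡ z ^ 3 - k [ZMOD (s : ℤ)] := (h1.pow 3).sub_right k
      exact h3.dvd_iff.mpr h2
  rw [← Finset.sum_fiberwise_of_maps_to hmaps]
  apply Finset.sum_congr rfl
  intro v hv
  unfold R at hv
  rw [mem_filter, mem_range] at hv
  apply Finset.sum_congr _ (fun _ _ => rfl)
  ext z
  simp only [mem_filter]
  constructor
  · rintro ⟨⟨hz1, hz2⟩, hz3⟩
    refine ⟨hz1, ?_⟩
    rw [← hz3, key z]
    exact (Int.mod_modEq z s).symm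
  · rintro ⟨hz1, hz2⟩
    refine ⟨⟨hz1, ?_⟩, ?_⟩
    · have h3 : z ^ 3 - k ≡ (v : ℤ) ^ 3 - k [ZMOD (s : ℤ)] := (hz2.pow 3).sub_right k
      exact h3.dvd_iff.mpr hv.2
    · have h4 : z % (s : ℤ) = (v : ℤ) % (s : ℤ) := hz2
      have h5 : (v : ℤ) % (s : ℤ) = v := Int.emod_eq_of_lt (by positivity) (by exact_mod_cast hv.1)
      have h6 := key z
      omega

/-- crude count -/
theorem cntA (k : ℤ) (Z s : ℕ) (hs : 1 ≤ s) :
    (((Icc (-(Z : ℤ)) Z).filter (fun z : ℤ => (s : ℤ) ∣ z ^ 3 - k)).card : ℝ) ≤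
      (R k s).card * ((2 * (Z : ℝ) + 1) / s + 1) := by
  have h := fib k Z s hs (fun _ => (1 : ℝ))
  rw [Finset.sum_const, nsmul_eq_mul, mul_one] at h
  rw [h]
  have : ∀ v ∈ R k s, ∑ z ∈ (Icc (-(Z : ℤ)) Z).filter (fun z : ℤ => z ≡ (v : ℤ) [ZMOD (s : ℤ)]), (1 : ℝ) ≤
      (2 * (Z : ℝ) + 1) / s + 1 := by
    intro v _
    rw [Finset.sum_const, nsmul_eq_mul, mul_one]
    have := (abs_le.mp (cnt1 Z s hs (v : ℤ))).2
    linarith
  calc _ ≤ ∑ v ∈ R k s, ((2 * (Z : ℝ) + 1) / s + 1) := Finset.sum_le_sum this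
    _ = _ := by rw [Finset.sum_const, nsmul_eq_mul]

/-- a function of period `N` along a progression -/
theorem per (Z s N v : ℕ) (hs : 1 ≤ s) (hN : 1 ≤ N) (hc : s.Coprime N) (G : ℤ → ℝ)
    (hG : ∀ a b : ℤ, a ≡ b [ZMOD (N : ℤ)] → G a = G b) (hG1 : ∀ z, |G z| ≤ 1)
    (hsum : ∑ u ∈ range N, G (u : ℤ) = 1) :
    ∑ z ∈ (Icc (-(Z : ℤ)) Z).filter (fun z : ℤ => z ≡ (v : ℤ) [ZMOD (s : ℤ)]), G z ≤
      (2 * (Z : ℝ) + 1) / (s * N) + N := by
  have hN0 : (0 : ℤ) < (N : ℤ) := by exact_mod_cast hN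
  have key : ∀ z : ℤ, (((z % (N : ℤ)).toNat : ℕ) : ℤ) = z % (N : ℤ) := fun z =>
    Int.toNat_of_nonneg (Int.emod_nonneg _ hN0.ne')
  have hmaps : ∀ z ∈ (Icc (-(Z : ℤ)) Z).filter (fun z : ℤ => z ≡ (v : ℤ) [ZMOD (s : ℤ)]),
      (z % (N : ℤ)).toNat ∈ range N := by
    intro z _
    rw [mem_range]
    have := Int.emod_lt_of_pos z hN0
    have h3 := key z
    omega
  rw [← Finset.sum_fiberwise_of_maps_to hmaps]
  have hterm : ∀ u ∈ range N,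
      ∑ z ∈ ((Icc (-(Z : ℤ)) Z).filter (fun z : ℤ => z ≡ (v : ℤ) [ZMOD (s : ℤ)])).filter
        (fun z => (z % (N : ℤ)).toNat = u), G z ≤ G (u : ℤ) * ((2 * (Z : ℝ) + 1) / (s * N)) + 1 := by
    intro u hu
    rw [mem_range] at hu
    obtain ⟨c, hc1, hc2⟩ := Nat.chineseRemainder hc v u
    have hc1' : (c : ℤ) ≡ (v : ℤ) [ZMOD (s : ℤ)] := by exact_mod_cast (Int.natCast_modEq_iff.mpr hc1)
    have hc2' : (c : ℤ) ≡ (u : ℤ) [ZMOD (N : ℤ)] := by exact_mod_cast (Int.natCast_modEq_iff.mpr hc2)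
    have hu' : (u : ℤ) % (N : ℤ) = u := Int.emod_eq_of_lt (by positivity) (by exact_mod_cast hu)
    have hset : ((Icc (-(Z : ℤ)) Z).filter (fun z : ℤ => z ≡ (v : ℤ) [ZMOD (s : ℤ)])).filter
        (fun z => (z % (N : ℤ)).toNat = u) =
        (Icc (-(Z : ℤ)) Z).filter (fun z : ℤ => z ≡ (c : ℤ) [ZMOD ((s * N : ℕ) : ℤ)]) := by
      ext z
      simp only [mem_filter]
      have hcop : (s : ℤ).natAbs.Coprime (N : ℤ).natAbs := by simpa using hc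
      have hiff := Int.modEq_and_modEq_iff_modEq_mul (a := z) (b := (c : ℤ)) (m := (s : ℤ)) (n := (N : ℤ)) hcop
      constructor
      · rintro ⟨⟨hz1, hz2⟩, hz3⟩
        refine ⟨hz1, ?_⟩
        push_cast
        apply hiff.mp
        refine ⟨hz2.trans hc1'.symm, ?_⟩
        have : z ≡ (u : ℤ) [ZMOD (N : ℤ)] := by
          have h6 := key z
          unfold Int.ModEq
          rw [hu', ← h6, hz3]
        exact this.trans hc2'.symm
      · rintro ⟨hz1, hz2⟩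
        push_cast at hz2
        obtain ⟨e1, e2⟩ := hiff.mpr hz2
        refine ⟨⟨hz1, e1.trans hc1'⟩, ?_⟩
        have h7 : z % (N : ℤ) = (u : ℤ) % (N : ℤ) := e2.trans hc2'
        have h6 := key z
        omega
    have hconst : ∀ z ∈ ((Icc (-(Z : ℤ)) Z).filter (fun z : ℤ => z ≡ (v : ℤ) [ZMOD (s : ℤ)])).filter
        (fun z => (z % (N : ℤ)).toNat = u), G z = G (u : ℤ) := by
      intro z hz
      apply hG
      have hz3 := (mem_filter.mp hz).2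
      have h6 := key z
      unfold Int.ModEq
      rw [hu', ← h6, hz3]
    rw [Finset.sum_congr rfl hconst, Finset.sum_const, nsmul_eq_mul, hset]
    have hb := cnt1 Z (s * N) (Nat.mul_pos hs hN) (c : ℤ)
    set n : ℝ := (((Icc (-(Z : ℤ)) Z).filter (fun z : ℤ => z ≡ (c : ℤ) [ZMOD ((s * N : ℕ) : ℤ)])).card : ℝ) with hn
    have hcast : (((s * N : ℕ) : ℝ)) = (s : ℝ) * N := by push_cast; ring
    rw [hcast] at hb
    have e3 : n * G (u : ℤ) = G (u : ℤ) * ((2 * (Z : ℝ) + 1) / (s * N)) +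
        G (u : ℤ) * (n - (2 * (Z : ℝ) + 1) / (s * N)) := by ring
    rw [e3]
    have e4 : G (u : ℤ) * (n - (2 * (Z : ℝ) + 1) / (s * N)) ≤ 1 := by
      calc _ ≤ |G (u : ℤ) * (n - (2 * (Z : ℝ) + 1) / (s * N))| := le_abs_self _
        _ = |G (u : ℤ)| * |n - (2 * (Z : ℝ) + 1) / (s * N)| := abs_mul _ _
        _ ≤ 1 * 1 := mul_le_mul (hG1 _) hb (abs_nonneg _) zero_le_one
        _ = 1 := by ring
    linarith
  calc _ ≤ ∑ u ∈ range N, (G (u : ℤ) * ((2 * (Z : ℝ) + 1) / (s * N)) + 1) := Finset.sum_le_sum hterm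
    _ = _ := by
      rw [Finset.sum_add_distrib, ← Finset.sum_mul, hsum, Finset.sum_const, card_range, nsmul_eq_mul]
      ring

/-- sums over the pairs -/
theorem sumA (k : ℤ) (S Z : ℕ) (P : ℤ → Prop) [DecidablePred P] (F : ℤ × ℤ → ℝ) :
    ∑ i ∈ (((Icc (S : ℤ) (2 * S)) ×ˢ (Icc (-(Z : ℤ)) Z)).filter
      (fun i : ℤ × ℤ => i.1 ∣ i.2 ^ 3 - k)).filter (fun i => P i.1), F i =
    ∑ s ∈ (Icc S (2 * S)).filter (fun s : ℕ => P (s : ℤ)),
      ∑ z ∈ (Icc (-(Z : ℤ)) Z).filter (fun z : ℤ => (s : ℤ) ∣ z ^ 3 - k), F ((s : ℤ), z) := by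
  rw [Finset.filter_filter, Finset.sum_filter, Finset.sum_product, Finset.sum_filter]
  have hI : Icc (S : ℤ) (2 * S) = (Icc S (2 * S)).image (Nat.cast : ℕ → ℤ) := by
    ext z
    simp only [mem_Icc, mem_image]
    constructor
    · rintro ⟨hz1, hz2⟩
      refine ⟨z.toNat, ?_, ?_⟩ <;> omega
    · rintro ⟨a, ⟨ha1, ha2⟩, rfl⟩
      omega
  rw [hI, Finset.sum_image (fun a _ b _ h => by exact_mod_cast h)]
  apply Finset.sum_congr rfl
  intro s _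
  by_cases hP : P (s : ℤ)
  · rw [if_pos hP, Finset.sum_filter]
    apply Finset.sum_congr rfl
    intro z _
    simp [hP]
  · rw [if_neg hP]
    apply Finset.sum_eq_zero
    intro z _
    simp [hP]

theorem g_modEq (p : ℕ) (a b : ℤ) (h : a ≡ b [ZMOD (p : ℤ)]) : g p a = g p b := by
  unfold g
  have : (a : ZMod p) = (b : ZMod p) := (ZMod.intCast_eq_intCast_iff a b p).mpr h
  rw [this]

theorem D_modEq (k s a b : ℤ) (p : ℕ) (h : a ≡ b [ZMOD (p : ℤ)]) : D k s a ≡ D k s b [ZMOD (p : ℤ)] := by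
  unfold D
  exact (((Int.ModEq.refl (4 * k)).sub ((h.pow 3).mul_left 4)).sub_right (s ^ 3)).mul_left (3 * s)

theorem g_abs (p : ℕ) (a : ℤ) : |g p a| ≤ 1 := by
  unfold g
  split_ifs <;> simp

theorem g_sq (p : ℕ) (a : ℤ) : g p a * g p a = 1 := by
  unfold g
  split_ifs <;> simp

theorem hRG2 (h1 : StCSM) (h2 : StASQ) (h3 : StCNT) (h4 : StCNP) : StRG2 := by
  classical
  intro k hk
  obtain ⟨C1, hC1, h3⟩ := h3 k hk
  obtain ⟨C2, hC2, h4⟩ := h4 k hk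
  refine ⟨32 * C1 + 16 * C2, by positivity, ?_⟩
  intro Z S P₀ P₁ T hS hSZ hP₀ hT hTne
  have hSr : (1 : ℝ) ≤ (S : ℝ) := by exact_mod_cast hS
  have hSp : (0 : ℝ) < (S : ℝ) := by linarith
  have hSZr : (S : ℝ) ≤ (Z : ℝ) := by exact_mod_cast hSZ
  have hZ0 : (0 : ℝ) < (Z : ℝ) := by linarith
  have hP₀p : (0 : ℝ) < P₀ := by linarith
  have hTc : (0 : ℝ) < (T.card : ℝ) := by exact_mod_cast hTne.card_pos
  set A : Finset (ℤ × ℤ) := ((Icc (S : ℤ) (2 * S)) ×ˢ (Icc (-(Z : ℤ)) Z)).filter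
      (fun i : ℤ × ℤ => i.1 ∣ i.2 ^ 3 - k) with hA
  have hasq := h2 A T (fun i => D k i.1 i.2) (fun p i => (p : ℤ) ∣ i.1) hTne
  -- the left side
  have hL : (((Icc (S : ℤ) (2 * S)) ×ˢ (Icc (-(Z : ℤ)) Z)).filter
      (fun i : ℤ × ℤ => i.1 ∣ i.2 ^ 3 - k ∧ IsSquare (D k i.1 i.2))) =
      A.filter (fun i => IsSquare (D k i.1 i.2)) := by
    rw [hA, Finset.filter_filter]
  have hL' : (((((Icc (S : ℤ) (2 * S)) ×ˢ (Icc (-(Z : ℤ)) Z)).filter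
      (fun i : ℤ × ℤ => i.1 ∣ i.2 ^ 3 - k ∧ IsSquare (D k i.1 i.2))).card : ℕ) : ℝ) =
      ((A.filter (fun i => IsSquare (D k i.1 i.2))).card : ℝ) := by
    rw [hL]
  -- bounds for a given s
  have hcnt : ∀ s ∈ Icc S (2 * S),
      (((Icc (-(Z : ℤ)) Z).filter (fun z : ℤ => (s : ℤ) ∣ z ^ 3 - k)).card : ℝ) ≤
        (R k s).card * (4 * (Z : ℝ) / S) := by
    intro s hs
    have hs' := mem_Icc.mp hs
    have hs1 : 1 ≤ s := le_trans hS hs'.1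
    have hsr : (S : ℝ) ≤ (s : ℝ) := by exact_mod_cast hs'.1
    refine (cntA k Z s hs1).trans ?_
    apply mul_le_mul_of_nonneg_left _ (Nat.cast_nonneg _)
    have e1 : (2 * (Z : ℝ) + 1) / s ≤ 3 * (Z : ℝ) / S := by
      rw [div_le_div_iff₀ (by linarith) hSp]
      have : (2 * (Z : ℝ) + 1) ≤ 3 * Z := by linarith
      calc (2 * (Z : ℝ) + 1) * S ≤ 3 * Z * S := mul_le_mul_of_nonneg_right this hSp.le
        _ ≤ 3 * Z * s := mul_le_mul_of_nonneg_left hsr (by linarith)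
    have e2 : 1 ≤ (Z : ℝ) / S := by
      rw [le_div_iff₀ hSp]; linarith
    have e3 : 4 * (Z : ℝ) / S = 3 * (Z : ℝ) / S + (Z : ℝ) / S := by ring
    linarith
  have hsub : ∀ (P : ℕ → Prop) [DecidablePred P], (Icc S (2 * S)).filter P ⊆ (Icc 1 (2 * S)).filter P := by
    intro P _
    apply Finset.filter_subset_filter
    exact Finset.Icc_subset_Icc hS le_rfl
  have hsumR : ∑ s ∈ Icc S (2 * S), ((R k s).card : ℝ) ≤ 2 * C1 * S := by
    calc _ ≤ ∑ s ∈ Icc 1 (2 * S), ((R k s).card : ℝ) :=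
          Finset.sum_le_sum_of_subset_of_nonneg (Finset.Icc_subset_Icc hS le_rfl) (fun _ _ _ => Nat.cast_nonneg _)
      _ ≤ C1 * ((2 * S : ℕ) : ℝ) := h3 (2 * S)
      _ = _ := by push_cast; ring
  -- first term
  have hfirst : ∀ p ∈ T, ((A.filter (fun i : ℤ × ℤ => (p : ℤ) ∣ i.1)).card : ℝ) ≤ 8 * C2 * Z / P₀ := by
    intro p hp
    obtain ⟨hp1, hp2, hp3, hp4, hp5, hp6⟩ := hT p hp
    have hs := sumA k S Z (fun s : ℤ => (p : ℤ) ∣ s) (fun _ => (1 : ℝ))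
    rw [← hA, Finset.sum_const, nsmul_eq_mul, mul_one] at hs
    rw [hs]
    have hpp : (0 : ℝ) < (p : ℝ) := by linarith
    calc _ ≤ ∑ s ∈ (Icc S (2 * S)).filter (fun s : ℕ => (p : ℤ) ∣ (s : ℤ)), ((R k s).card : ℝ) * (4 * (Z : ℝ) / S) := by
          apply Finset.sum_le_sum
          intro s hs
          rw [Finset.sum_const, nsmul_eq_mul, mul_one]
          exact hcnt s (mem_filter.mp hs).1
      _ = (∑ s ∈ (Icc S (2 * S)).filter (fun s : ℕ => (p : ℤ) ∣ (s : ℤ)), ((R k s).card : ℝ)) * (4 * (Z : ℝ) / S) := by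
          rw [Finset.sum_mul]
      _ ≤ (C2 * ((2 * S : ℕ) : ℝ) / p) * (4 * (Z : ℝ) / S) := by
          apply mul_le_mul_of_nonneg_right _ (by positivity)
          refine le_trans ?_ (h4 p hp1 hp4 (2 * S))
          apply Finset.sum_le_sum_of_subset_of_nonneg _ (fun _ _ _ => Nat.cast_nonneg _)
          intro s hs
          rw [mem_filter, mem_Icc] at hs ⊢
          exact ⟨⟨le_trans hS hs.1.1, hs.1.2⟩, by exact_mod_cast hs.2⟩
      _ = 8 * C2 * Z / p := by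
          push_cast
          field_simp
          ring
      _ ≤ 8 * C2 * Z / P₀ := by
          apply div_le_div_of_nonneg_left (by positivity) hP₀p hp5.le
  -- diagonal terms
  have hdiag : ∀ p ∈ T, ∑ i ∈ A.filter (fun i : ℤ × ℤ => ¬ (p : ℤ) ∣ i.1 ∧ ¬ (p : ℤ) ∣ i.1),
      g p (D k i.1 i.2) * g p (D k i.1 i.2) ≤ 8 * C1 * Z := by
    intro p _
    have e1 : ∑ i ∈ A.filter (fun i : ℤ × ℤ => ¬ (p : ℤ) ∣ i.1 ∧ ¬ (p : ℤ) ∣ i.1),
      g p (D k i.1 i.2) * g p (D k i.1 i.2) = ((A.filter (fun i : ℤ × ℤ => ¬ (p : ℤ) ∣ i.1 ∧ ¬ (p : ℤ) ∣ i.1)).card : ℝ) := by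
      rw [Finset.sum_congr rfl (fun i _ => g_sq p (D k i.1 i.2)), Finset.sum_const, nsmul_eq_mul, mul_one]
    rw [e1]
    have e2 : ((A.filter (fun i : ℤ × ℤ => ¬ (p : ℤ) ∣ i.1 ∧ ¬ (p : ℤ) ∣ i.1)).card : ℝ) ≤ (A.card : ℝ) := by
      exact_mod_cast Finset.card_filter_le _ _
    refine e2.trans ?_
    have hs := sumA k S Z (fun _ : ℤ => True) (fun _ => (1 : ℝ))
    rw [← hA, Finset.filter_true, Finset.filter_true, Finset.sum_const, nsmul_eq_mul, mul_one] at hs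
    rw [hs]
    calc _ ≤ ∑ s ∈ Icc S (2 * S), ((R k s).card : ℝ) * (4 * (Z : ℝ) / S) := by
          apply Finset.sum_le_sum
          intro s hs
          rw [Finset.sum_const, nsmul_eq_mul, mul_one]
          exact hcnt s hs
      _ = (∑ s ∈ Icc S (2 * S), ((R k s).card : ℝ)) * (4 * (Z : ℝ) / S) := by rw [Finset.sum_mul]
      _ ≤ (2 * C1 * S) * (4 * (Z : ℝ) / S) := mul_le_mul_of_nonneg_right hsumR (by positivity)
      _ = 8 * C1 * Z := by field_simp; ring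
  -- off-diagonal terms
  have hoff : ∀ p ∈ T, ∀ q ∈ T, p ≠ q →
      ∑ i ∈ A.filter (fun i : ℤ × ℤ => ¬ (p : ℤ) ∣ i.1 ∧ ¬ (q : ℤ) ∣ i.1),
      g p (D k i.1 i.2) * g q (D k i.1 i.2) ≤ 6 * C1 * Z / P₀ + 2 * C1 * S * P₁ ^ 2 := by
    intro p hp q hq hpq
    obtain ⟨hp1, hp2, hp3, hp4, hp5, hp6⟩ := hT p hp
    obtain ⟨hq1, hq2, hq3, hq4, hq5, hq6⟩ := hT q hq
    have hs := sumA k S Z (fun s : ℤ => ¬ (p : ℤ) ∣ s ∧ ¬ (q : ℤ) ∣ s)
      (fun i => g p (D k i.1 i.2) * g q (D k i.1 i.2))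
    rw [← hA] at hs
    rw [hs]
    have hB0 : 0 ≤ 3 * (Z : ℝ) / (S * P₀) + P₁ ^ 2 := by positivity
    have hin : ∀ s ∈ (Icc S (2 * S)).filter (fun s : ℕ => ¬ (p : ℤ) ∣ (s : ℤ) ∧ ¬ (q : ℤ) ∣ (s : ℤ)),
        ∑ z ∈ (Icc (-(Z : ℤ)) Z).filter (fun z : ℤ => (s : ℤ) ∣ z ^ 3 - k),
          g p (D k s z) * g q (D k s z) ≤ ((R k s).card : ℝ) * (3 * (Z : ℝ) / (S * P₀) + P₁ ^ 2) := by
      intro s hs
      rw [mem_filter, mem_Icc] at hs
      obtain ⟨⟨hs1, hs2⟩, hs3, hs4⟩ := hs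
      have hs0 : 1 ≤ s := le_trans hS hs1
      have hsr : (S : ℝ) ≤ (s : ℝ) := by exact_mod_cast hs1
      rw [fib k Z s hs0]
      have hcp : s.Coprime (p * q) := by
        apply Nat.Coprime.mul_right
        · exact ((Nat.Prime.coprime_iff_not_dvd hp1).mpr (fun h => hs3 (by exact_mod_cast h))).symm
        · exact ((Nat.Prime.coprime_iff_not_dvd hq1).mpr (fun h => hs4 (by exact_mod_cast h))).symm
      have hN1 : 1 ≤ p * q := Nat.mul_pos hp1.pos hq1.pos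
      have hterm : ∀ v ∈ R k s, ∑ z ∈ (Icc (-(Z : ℤ)) Z).filter (fun z : ℤ => z ≡ (v : ℤ) [ZMOD (s : ℤ)]),
          g p (D k s z) * g q (D k s z) ≤ 3 * (Z : ℝ) / (S * P₀) + P₁ ^ 2 := by
        intro v _
        have hper := per Z s (p * q) v hs0 hN1 hcp (fun z => g p (D k s z) * g q (D k s z)) ?_ ?_ ?_
        · refine hper.trans ?_
          push_cast
          have hpr : (0 : ℝ) < (p : ℝ) := by linarith
          have hqr : (0 : ℝ) < (q : ℝ) := by linarith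
          have hq1' : (1 : ℝ) ≤ (q : ℝ) := by linarith
          have f1 : (p : ℝ) * q ≤ P₁ ^ 2 := by
            rw [sq]
            exact mul_le_mul hp6 hq6 hqr.le (by linarith)
          have f2 : (2 * (Z : ℝ) + 1) / (s * (p * q)) ≤ 3 * (Z : ℝ) / (S * P₀) := by
            rw [div_le_div_iff₀ (by have : (0:ℝ) < (s : ℝ) := by linarith
                                    positivity) (by positivity)]
            have g1 : (2 * (Z : ℝ) + 1) ≤ 3 * Z := by linarith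
            have g2 : (S : ℝ) * P₀ ≤ s * (p * q) := by
              apply mul_le_mul hsr _ hP₀p.le (by linarith)
              calc P₀ = P₀ * 1 := by ring
                _ ≤ (p : ℝ) * q := mul_le_mul hp5.le hq1' zero_le_one hpr.le
            calc (2 * (Z : ℝ) + 1) * (S * P₀) ≤ (3 * Z) * (S * P₀) :=
                  mul_le_mul_of_nonneg_right g1 (by positivity)
              _ ≤ (3 * Z) * (s * (p * q)) := mul_le_mul_of_nonneg_left g2 (by positivity)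
          linarith
        · intro a b hab
          have hab' : a ≡ b [ZMOD (p : ℤ) * (q : ℤ)] := by
            have : (((p * q : ℕ) : ℤ)) = (p : ℤ) * (q : ℤ) := by push_cast; ring
            rwa [this] at hab
          have ha : a ≡ b [ZMOD (p : ℤ)] := Int.ModEq.of_mul_right _ hab'
          have hb : a ≡ b [ZMOD (q : ℤ)] := Int.ModEq.of_mul_left _ hab'
          show g p (D k s a) * g q (D k s a) = g p (D k s b) * g q (D k s b)
          rw [g_modEq p _ _ (D_modEq k s a b p ha), g_modEq q _ _ (D_modEq k s a b q hb)]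
        · intro z
          rw [abs_mul]
          calc _ ≤ (1 : ℝ) * 1 := mul_le_mul (g_abs _ _) (g_abs _ _) (abs_nonneg _) zero_le_one
            _ = 1 := by ring
        · have := h1 k s 0 p q hp1 hq1 hpq hp2 hq2 hp3 hq3 hs3 hs4
          simpa using this
      calc _ ≤ ∑ v ∈ R k s, (3 * (Z : ℝ) / (S * P₀) + P₁ ^ 2) := Finset.sum_le_sum hterm
        _ = _ := by rw [Finset.sum_const, nsmul_eq_mul]
    calc _ ≤ ∑ s ∈ (Icc S (2 * S)).filter (fun s : ℕ => ¬ (p : ℤ) ∣ (s : ℤ) ∧ ¬ (q : ℤ) ∣ (s : ℤ)),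
          ((R k s).card : ℝ) * (3 * (Z : ℝ) / (S * P₀) + P₁ ^ 2) := Finset.sum_le_sum hin
      _ ≤ ∑ s ∈ Icc S (2 * S), ((R k s).card : ℝ) * (3 * (Z : ℝ) / (S * P₀) + P₁ ^ 2) :=
          Finset.sum_le_sum_of_subset_of_nonneg (Finset.filter_subset _ _)
            (fun _ _ _ => mul_nonneg (Nat.cast_nonneg _) hB0)
      _ = (∑ s ∈ Icc S (2 * S), ((R k s).card : ℝ)) * (3 * (Z : ℝ) / (S * P₀) + P₁ ^ 2) := by
          rw [Finset.sum_mul]
      _ ≤ (2 * C1 * S) * (3 * (Z : ℝ) / (S * P₀) + P₁ ^ 2) := mul_le_mul_of_nonneg_right hsumR hB0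
      _ = 6 * C1 * Z / P₀ + 2 * C1 * S * P₁ ^ 2 := by
          field_simp
          ring
  -- all pairs
  have hall : ∀ p ∈ T, ∀ q ∈ T,
      ∑ i ∈ A.filter (fun i : ℤ × ℤ => ¬ (p : ℤ) ∣ i.1 ∧ ¬ (q : ℤ) ∣ i.1),
      g p (D k i.1 i.2) * g q (D k i.1 i.2) ≤
        (6 * C1 * Z / P₀ + 2 * C1 * S * P₁ ^ 2) + (if p = q then 8 * C1 * Z else 0) := by
    intro p hp q hq
    have hB0 : 0 ≤ 6 * C1 * Z / P₀ + 2 * C1 * S * P₁ ^ 2 := by positivity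
    by_cases hpq : p = q
    · subst hpq
      rw [if_pos rfl]
      have := hdiag p hp
      linarith
    · rw [if_neg hpq]
      have := hoff p hp q hq hpq
      linarith
  have hsumall : ∑ p ∈ T, ∑ q ∈ T,
      ∑ i ∈ A.filter (fun i : ℤ × ℤ => ¬ (p : ℤ) ∣ i.1 ∧ ¬ (q : ℤ) ∣ i.1),
      g p (D k i.1 i.2) * g q (D k i.1 i.2) ≤
        (T.card : ℝ) ^ 2 * (6 * C1 * Z / P₀ + 2 * C1 * S * P₁ ^ 2) + T.card * (8 * C1 * Z) := by
    calc _ ≤ ∑ p ∈ T, ∑ q ∈ T, ((6 * C1 * Z / P₀ + 2 * C1 * S * P₁ ^ 2) + (if p = q then 8 * C1 * Z else 0)) :=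
          Finset.sum_le_sum (fun p hp => Finset.sum_le_sum (fun q hq => hall p hp q hq))
      _ = ∑ p ∈ T, (T.card * (6 * C1 * Z / P₀ + 2 * C1 * S * P₁ ^ 2) + 8 * C1 * Z) := by
          apply Finset.sum_congr rfl
          intro p hp
          rw [Finset.sum_add_distrib, Finset.sum_const, nsmul_eq_mul, Finset.sum_ite_eq, if_pos hp]
      _ = _ := by
          rw [Finset.sum_const, nsmul_eq_mul]
          ring
  have hsum1 : ∑ p ∈ T, ((A.filter (fun i : ℤ × ℤ => (p : ℤ) ∣ i.1)).card : ℝ) ≤ T.card * (8 * C2 * Z / P₀) := by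
    calc _ ≤ ∑ p ∈ T, (8 * C2 * Z / P₀) := Finset.sum_le_sum hfirst
      _ = _ := by rw [Finset.sum_const, nsmul_eq_mul]
  have hfin : ((A.filter (fun i => IsSquare (D k i.1 i.2))).card : ℝ) ≤
      2 / T.card * (T.card * (8 * C2 * Z / P₀)) + 4 / (T.card : ℝ) ^ 2 *
        ((T.card : ℝ) ^ 2 * (6 * C1 * Z / P₀ + 2 * C1 * S * P₁ ^ 2) + T.card * (8 * C1 * Z)) := by
    have hasq2 : ((A.filter (fun i => IsSquare (D k i.1 i.2))).card : ℝ) ≤
        2 / T.card * ∑ p ∈ T, ((A.filter (fun i : ℤ × ℤ => (p : ℤ) ∣ i.1)).card : ℝ) +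
        4 / (T.card : ℝ) ^ 2 * ∑ p ∈ T, ∑ q ∈ T,
          ∑ i ∈ A.filter (fun i : ℤ × ℤ => ¬ (p : ℤ) ∣ i.1 ∧ ¬ (q : ℤ) ∣ i.1),
            g p (D k i.1 i.2) * g q (D k i.1 i.2) := by
      convert hasq
    exact hasq2.trans (add_le_add (mul_le_mul_of_nonneg_left hsum1 (by positivity))
      (mul_le_mul_of_nonneg_left hsumall (by positivity)))
  have hgoal : ((A.filter (fun i => IsSquare (D k i.1 i.2))).card : ℝ) ≤
      (32 * C1 + 16 * C2) * (Z / T.card + Z / P₀ + S * P₁ ^ 2) := by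
    refine hfin.trans ?_
    have e1 : 2 / (T.card : ℝ) * (T.card * (8 * C2 * Z / P₀)) + 4 / (T.card : ℝ) ^ 2 *
        ((T.card : ℝ) ^ 2 * (6 * C1 * Z / P₀ + 2 * C1 * S * P₁ ^ 2) + T.card * (8 * C1 * Z)) =
        16 * C2 * (Z / P₀) + 24 * C1 * (Z / P₀) + 8 * C1 * (S * P₁ ^ 2) + 32 * C1 * (Z / T.card) := by
      field_simp
      ring
    rw [e1]
    have a1 : 0 ≤ (Z : ℝ) / P₀ := by positivity
    have a2 : 0 ≤ (S : ℝ) * P₁ ^ 2 := by positivity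
    have a3 : 0 ≤ (Z : ℝ) / T.card := by positivity
    have b1 : 0 ≤ C1 * (Z / P₀) := by positivity
    have b2 : 0 ≤ C1 * ((S : ℝ) * P₁ ^ 2) := by positivity
    have b3 : 0 ≤ C2 * ((S : ℝ) * P₁ ^ 2) := by positivity
    have b4 : 0 ≤ C2 * ((Z : ℝ) / T.card) := by positivity
    nlinarith [b1, b2, b3, b4]
  rw [← hL'] at hgoal
  convert hgoal using 1

end Pool.Agent.Helper30.CU
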